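import Pool.Agent.H7.Sedf

set_option autoImplicit false

namespace Pool.Agent.Results.MP_2fa8e1_co.NoSedf

/-- No finite group (abelian or not) contains an `(n, m, k, 1)`-SEDF with `m ≥ 3`, `k ≥ 2`. -/
theorem result (G : Type) [Group G] [Fintype G] [DecidableEq G] (m k : ℕ) (hm : 3 ≤ m)
    (hk : 2 ≤ k) (A : Fin m → Finset G) (hcard : ∀ i, (A i).card = k)
    (hdisj : ∀ i j, i ≠ j → Disjoint (A i) (A j)) :
    ¬ ∀ (i : Fin m) (g : G), g ≠ 1 →
      ∑ j ∈ Finset.univ.erase i, ((A i ×ˢ A j).filter (fun p => p.1 * p.2⁻¹ = g)).card = 1 :=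
  fun h => Pool.Agent.H7.Sedf.no_sedf m k hm hk A hcard hdisj h

end Pool.Agent.Results.MP_2fa8e1_co.NoSedf
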